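import Pool.Agent.Helper40.CN.Spec

set_option autoImplicit false

namespace Pool.Agent.Helper18.CN

open Pool.Agent.Helper40.CN

universe u

theorem kk : S_KK.{u} := by
  intro G _ A _ hA
  letI iA : CommGroup A := { (inferInstance : Group A) with
    mul_comm := fun a b => Subtype.ext (hA a.1 a.2 b.1 b.2) }
  let act : DistribMulAction G ((G ⧸ A) → Additive A) :=
    { smul := fun x f q => f (x⁻¹ • q)
      one_smul := by
        intro f
        funext q
        change f ((1 : G)⁻¹ • q) = f q
        rw [inv_one, one_smul]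
      mul_smul := by
        intro x y f
        funext q
        change f ((x * y)⁻¹ • q) = f (y⁻¹ • x⁻¹ • q)
        rw [mul_inv_rev, mul_smul]
      smul_zero := by
        intro x
        rfl
      smul_add := by
        intro x f g
        rfl }
  have hout : ∀ q : G ⧸ A, (QuotientGroup.mk q.out : G ⧸ A) = q := fun q => Quotient.out_eq q
  have hmem : ∀ (x : G) (q : G ⧸ A), q.out⁻¹ * (x * (x⁻¹ • q).out) ∈ A := by
    intro x q
    rw [← QuotientGroup.eq, hout]
    have h1 : (QuotientGroup.mk (x * (x⁻¹ • q).out) : G ⧸ A)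
        = x • (QuotientGroup.mk ((x⁻¹ • q).out) : G ⧸ A) := rfl
    rw [h1, hout, smul_inv_smul]
  have htr : ∀ a ∈ A, ∀ q : G ⧸ A, a • q = q := by
    intro a ha q
    induction q using QuotientGroup.induction_on with
    | H g =>
      change (QuotientGroup.mk (a * g) : G ⧸ A) = QuotientGroup.mk g
      rw [QuotientGroup.eq]
      have h2 : (a * g)⁻¹ * g = g⁻¹ * a⁻¹ * g⁻¹⁻¹ := by group
      rw [h2]
      exact Subgroup.Normal.conj_mem inferInstance _ (A.inv_mem ha) _
  refine ⟨(G ⧸ A) → Additive A, inferInstance, act,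
    fun x q => Additive.ofMul ⟨q.out⁻¹ * (x * (x⁻¹ • q).out), hmem x q⟩, ?_, ?_, ?_⟩
  · intro x y
    funext q
    change Additive.ofMul _ = Additive.ofMul _
    congr 1
    apply Subtype.ext
    change q.out⁻¹ * (x * y * ((x * y)⁻¹ • q).out) =
      (q.out⁻¹ * (x * (x⁻¹ • q).out)) * ((x⁻¹ • q).out⁻¹ * (y * (y⁻¹ • x⁻¹ • q).out))
    rw [mul_inv_rev, mul_smul]
    group
  · intro a ha b
    funext q
    change b (a⁻¹ • q) = b q
    rw [htr _ (A.inv_mem ha)]
  · intro a ha h
    have h1 := congrFun h (QuotientGroup.mk 1)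
    have h2 : (QuotientGroup.mk 1 : G ⧸ A).out⁻¹ *
        (a * (a⁻¹ • (QuotientGroup.mk 1 : G ⧸ A)).out) = 1 :=
      congrArg Subtype.val (congrArg Additive.toMul h1)
    rw [htr _ (A.inv_mem ha)] at h2
    rw [inv_mul_eq_one] at h2
    exact (mul_eq_right.mp h2.symm)

end Pool.Agent.Helper18.CN
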