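import Pool.Agent.Helper40.CN.Spec

set_option autoImplicit false

namespace Pool.Agent.Helper18.CN

open Pool.Agent.Helper40.CN
open scoped commutatorElement

universe u

lemma comm_fg (Z : Type u) [CommGroup Z] [Group.FG Z] (H : Subgroup Z) : H.FG := by
  haveI h1 : AddGroup.FG (Additive Z) := inferInstance
  haveI h2 : Module.Finite ℤ (Additive Z) := Module.Finite.iff_addGroup_fg.mpr h1
  haveI h3 : IsNoetherian ℤ (Additive Z) := isNoetherian_of_isNoetherianRing_of_finite ℤ _
  rw [Subgroup.fg_iff_add_fg]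
  have h4 := IsNoetherian.noetherian (AddSubgroup.toIntSubmodule (Subgroup.toAddSubgroup H))
  rw [Submodule.fg_iff_addSubgroup_fg] at h4
  exact h4

lemma comm_fg' (G : Type u) [Group G] (Z H : Subgroup G) (hZ : Z.FG)
    (hc : ∀ a ∈ Z, ∀ b ∈ Z, a * b = b * a) (hH : H ≤ Z) : H.FG := by
  let iZ : CommGroup Z := { (inferInstance : Group Z) with
    mul_comm := fun a b => Subtype.ext (hc a.1 a.2 b.1 b.2) }
  haveI : Group.FG Z := (Group.fg_iff_subgroup_fg Z).mpr hZ
  have h1 : (H.subgroupOf Z).FG := comm_fg Z (H.subgroupOf Z)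
  obtain ⟨S, hS, hf⟩ := (Subgroup.fg_iff _).mp h1
  refine (Subgroup.fg_iff _).mpr ⟨Z.subtype '' S, ?_, hf.image _⟩
  rw [← MonoidHom.map_closure, hS, Subgroup.subgroupOf_map_subtype, inf_eq_left.mpr hH]

lemma ext_fg (G : Type u) [Group G] (K H : Subgroup G) [K.Normal] (h1 : (H ⊓ K).FG)
    (h2 : (H.map (QuotientGroup.mk' K)).FG) : H.FG := by
  obtain ⟨S, hS, hf⟩ := (Subgroup.fg_iff _).mp h2
  have hch : ∀ y ∈ S, ∃ h ∈ H, QuotientGroup.mk' K h = y := by
    intro y hy
    have : y ∈ H.map (QuotientGroup.mk' K) := by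
      rw [← hS]
      exact Subgroup.subset_closure hy
    exact Subgroup.mem_map.mp this
  choose! c hcH hcy using hch
  have hT : Subgroup.closure (c '' S) ≤ H := by
    rw [Subgroup.closure_le]
    rintro _ ⟨y, hy, rfl⟩
    exact hcH y hy
  have key : H = Subgroup.closure (c '' S) ⊔ (H ⊓ K) := by
    apply le_antisymm
    · intro x hx
      have hx1 : QuotientGroup.mk' K x ∈ (Subgroup.closure (c '' S)).map (QuotientGroup.mk' K) := by
        rw [MonoidHom.map_closure, ← Set.image_comp]
        have e : (QuotientGroup.mk' K ∘ c) '' S = S := by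
          apply Set.Subset.antisymm
          · rintro _ ⟨y, hy, rfl⟩
            change QuotientGroup.mk' K (c y) ∈ S
            rw [hcy y hy]
            exact hy
          · intro y hy
            exact ⟨y, hy, hcy y hy⟩
        rw [e, hS]
        exact Subgroup.mem_map_of_mem _ hx
      obtain ⟨t, ht, hte⟩ := Subgroup.mem_map.mp hx1
      have hk : t⁻¹ * x ∈ K := QuotientGroup.eq.mp hte
      have hx2 : x = t * (t⁻¹ * x) := by group
      rw [hx2]
      exact Subgroup.mul_mem_sup ht ⟨H.mul_mem (H.inv_mem (hT ht)) hx, hk⟩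
    · exact sup_le hT inf_le_left
  rw [key]
  exact Subgroup.FG.sup ((Subgroup.fg_iff _).mpr ⟨_, rfl, hf.image _⟩) h1

lemma gen_step (N : Type u) [Group N] (X : Set N) (hX : Subgroup.closure X = ⊤)
    (A : Subgroup N) [A.Normal] (S : Set N) (hSA : S ⊆ A)
    (hS : A ≤ Subgroup.closure S ⊔ ⁅A, (⊤ : Subgroup N)⁆) :
    ⁅A, (⊤ : Subgroup N)⁆ ≤ Subgroup.closure (Set.image2 (fun s x => ⁅s, x⁆) S X) ⊔
      ⁅⁅A, (⊤ : Subgroup N)⁆, (⊤ : Subgroup N)⁆ := by
  set T := Subgroup.closure (Set.image2 (fun s x => ⁅s, x⁆) S X) ⊔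
      ⁅⁅A, (⊤ : Subgroup N)⁆, (⊤ : Subgroup N)⁆ with hT
  have hTB : T ≤ ⁅A, (⊤ : Subgroup N)⁆ := by
    refine sup_le ?_ (Subgroup.commutator_le_left _ _)
    rw [Subgroup.closure_le]
    rintro _ ⟨s, hs, x, hx, rfl⟩
    exact Subgroup.commutator_mem_commutator (hSA hs) (Subgroup.mem_top _)
  have hTn : T.Normal := by
    constructor
    intro t ht g
    have h1 : g * t * g⁻¹ = ⁅g, t⁆ * t := by
      rw [commutatorElement_def]
      group
    rw [h1]
    refine T.mul_mem ?_ ht
    have h2 : ⁅g, t⁆ ∈ ⁅(⊤ : Subgroup N), ⁅A, (⊤ : Subgroup N)⁆⁆ :=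
      Subgroup.commutator_mem_commutator (Subgroup.mem_top _) (hTB ht)
    rw [Subgroup.commutator_comm] at h2
    exact (le_sup_right : _ ≤ T) h2
  have hK : A ≤ (Subgroup.center (N ⧸ T)).comap (QuotientGroup.mk' T) := by
    refine hS.trans (sup_le ?_ ?_)
    · rw [Subgroup.closure_le]
      intro s hs
      change QuotientGroup.mk' T s ∈ Subgroup.center (N ⧸ T)
      have h3 : (⊤ : Subgroup N) ≤ (Subgroup.centralizer {QuotientGroup.mk' T s}).comap
          (QuotientGroup.mk' T) := by
        rw [← hX, Subgroup.closure_le]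
        intro x hx
        change QuotientGroup.mk' T x ∈ Subgroup.centralizer {QuotientGroup.mk' T s}
        rw [Subgroup.mem_centralizer_singleton_iff]
        have h4 : QuotientGroup.mk' T ⁅s, x⁆ = 1 := by
          rw [QuotientGroup.mk'_apply, QuotientGroup.eq_one_iff]
          exact (le_sup_left : _ ≤ T) (Subgroup.subset_closure ⟨s, hs, x, hx, rfl⟩)
        rw [map_commutatorElement, commutatorElement_eq_one_iff_mul_comm] at h4
        exact h4.symm
      rw [Subgroup.mem_center_iff]
      intro q
      obtain ⟨g, rfl⟩ := QuotientGroup.mk'_surjective T q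
      have h5 : QuotientGroup.mk' T g ∈ Subgroup.centralizer {QuotientGroup.mk' T s} :=
        h3 (Subgroup.mem_top g)
      rw [Subgroup.mem_centralizer_singleton_iff] at h5
      exact h5
    · intro b hb
      change QuotientGroup.mk' T b ∈ Subgroup.center (N ⧸ T)
      rw [Subgroup.mem_center_iff]
      intro q
      obtain ⟨g, rfl⟩ := QuotientGroup.mk'_surjective T q
      have h4 : QuotientGroup.mk' T ⁅b, g⁆ = 1 := by
        rw [QuotientGroup.mk'_apply, QuotientGroup.eq_one_iff]
        exact (le_sup_right : _ ≤ T)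
          (Subgroup.commutator_mem_commutator hb (Subgroup.mem_top _))
      rw [map_commutatorElement, commutatorElement_eq_one_iff_mul_comm] at h4
      exact h4.symm
  rw [Subgroup.commutator_le]
  intro a ha g _
  have h6 : QuotientGroup.mk' T a ∈ Subgroup.center (N ⧸ T) := hK ha
  rw [Subgroup.mem_center_iff] at h6
  have h7 : QuotientGroup.mk' T ⁅a, g⁆ = 1 := by
    rw [map_commutatorElement, commutatorElement_eq_one_iff_mul_comm]
    exact (h6 _).symm
  rw [QuotientGroup.mk'_apply, QuotientGroup.eq_one_iff] at h7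
  exact h7

theorem max : S_MAX.{u} := by
  intro N _ _ hnil
  obtain ⟨c, hc⟩ := Subgroup.nilpotent_iff_lowerCentralSeries.mp hnil
  obtain ⟨X, hX, hXf⟩ := Group.fg_iff.mp (inferInstance : Group.FG N)
  have hgen : ∀ j, ∃ S : Set N, S.Finite ∧ S ⊆ ((⊤ : Subgroup N).lowerCentralSeries j : Set N) ∧
      (⊤ : Subgroup N).lowerCentralSeries j ≤
        Subgroup.closure S ⊔ (⊤ : Subgroup N).lowerCentralSeries (j + 1) := by
    intro j
    induction j with
    | zero =>
      refine ⟨X, hXf, fun x _ => Subgroup.mem_top x, ?_⟩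
      rw [hX]
      exact le_sup_left.trans' le_top
    | succ j ih =>
      obtain ⟨S, hf, hSA, hS⟩ := ih
      refine ⟨Set.image2 (fun s x => ⁅s, x⁆) S X, hf.image2 _ hXf, ?_, ?_⟩
      · rintro _ ⟨s, hs, x, hx, rfl⟩
        exact Subgroup.commutator_mem_commutator (hSA hs) (Subgroup.mem_top _)
      · exact gen_step N X hX _ S hSA hS
  have main : ∀ i j, i + j = c → ∀ H : Subgroup N, H ≤ (⊤ : Subgroup N).lowerCentralSeries j →
      H.FG := by
    intro i
    induction i with
    | zero =>
      intro j hj H hH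
      have : H = ⊥ := by
        rw [eq_bot_iff, ← hc, ← hj, zero_add]
        exact hH
      rw [this]
      exact Subgroup.FG.bot
    | succ i ih =>
      intro j hj H hH
      apply ext_fg N ((⊤ : Subgroup N).lowerCentralSeries (j + 1)) H
      · exact ih (j + 1) (by omega) _ inf_le_right
      · obtain ⟨S, hf, hSA, hS⟩ := hgen j
        apply comm_fg' _ (((⊤ : Subgroup N).lowerCentralSeries j).map
          (QuotientGroup.mk' ((⊤ : Subgroup N).lowerCentralSeries (j + 1))))
        · refine (Subgroup.fg_iff _).mpr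
            ⟨QuotientGroup.mk' ((⊤ : Subgroup N).lowerCentralSeries (j + 1)) '' S, ?_, hf.image _⟩
          rw [← MonoidHom.map_closure]
          apply le_antisymm
          · apply Subgroup.map_mono
            rw [Subgroup.closure_le]
            exact hSA
          · refine (Subgroup.map_mono hS).trans ?_
            rw [Subgroup.map_sup]
            refine sup_le le_rfl ?_
            rintro _ ⟨b, hb, rfl⟩
            have : QuotientGroup.mk' ((⊤ : Subgroup N).lowerCentralSeries (j + 1)) b = 1 := by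
              rw [QuotientGroup.mk'_apply, QuotientGroup.eq_one_iff]
              exact hb
            rw [this]
            exact Subgroup.one_mem _
        · rintro _ ⟨a, ha, rfl⟩ _ ⟨b, hb, rfl⟩
          rw [← commutatorElement_eq_one_iff_mul_comm, ← map_commutatorElement,
            QuotientGroup.mk'_apply, QuotientGroup.eq_one_iff]
          exact Subgroup.commutator_mem_commutator ha (Subgroup.mem_top _)
        · exact Subgroup.map_mono hH
  intro H
  exact main c 0 (by omega) H (fun x _ => Subgroup.mem_top x)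

end Pool.Agent.Helper18.CN
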