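import Pool.Agent.Helper40.CN.Spec

set_option autoImplicit false

namespace Pool.Agent.Helper18.CN

open Pool.Agent.Helper40.CN

universe u

lemma ff_mono {G : Type u} [Group G] (N : Subgroup G) {k : ℕ} {M : Type u} [AddCommGroup M]
    [DistribMulAction G M] (m : G → M) {S1 S0 T1 T0 : Set ((Fin k → N) → G)} (h1 : S1 ⊆ T1)
    (h0 : S0 ⊆ T0) : FF N m S1 S0 ≤ FF N m T1 T0 := by
  apply AddSubgroup.closure_mono
  rintro f (⟨ψ, hψ, i, rfl⟩ | ⟨ψ, hψ, b, rfl⟩)
  · exact Or.inl ⟨ψ, h1 hψ, i, rfl⟩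
  · exact Or.inr ⟨ψ, h0 hψ, b, rfl⟩

set_option maxHeartbeats 1000000 in
theorem wx (hFB : S_FB.{u}) : S_WX.{u} := by
  intro G _ A N k Q hc hi M _ _ m hK w g
  have m1 : m 1 = 0 := by
    have h := hK.der 1 1
    rw [one_smul, mul_one] at h
    exact left_eq_add.mp h
  have minv : ∀ x, m x⁻¹ = - (x⁻¹ • m x) := by
    intro x
    have h := hK.der x⁻¹ x
    rw [inv_mul_cancel, m1] at h
    exact eq_neg_of_add_eq_zero_left h.symm
  have hmem1 : ∀ (S1 S0 : Set ((Fin k → N) → G)) ψ, ψ ∈ S1 → ∀ i : Fin k,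
      (fun u => ψ u • m (u i)) ∈ FF N m S1 S0 := fun S1 S0 ψ h i =>
    AddSubgroup.subset_closure (Or.inl ⟨ψ, h, i, rfl⟩)
  have hmem0 : ∀ (S1 S0 : Set ((Fin k → N) → G)) ψ, ψ ∈ S0 → ∀ b : M,
      (fun u => ψ u • b) ∈ FF N m S1 S0 := fun S1 S0 ψ h b =>
    AddSubgroup.subset_closure (Or.inr ⟨ψ, h, b, rfl⟩)
  have htr : ∀ (ψ : (Fin k → N) → G) (S : Set ((Fin k → N) → G)), ψ ∈ Q → S ⊆ Q → S.Finite →
      tr ψ S ⊆ Q ∧ (tr ψ S).Finite := by
    intro ψ S hψ hS hf
    refine ⟨?_, hf.image _⟩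
    rintro _ ⟨φ, hφ, rfl⟩
    exact Q.mul_mem (Q.inv_mem hψ) (hS hφ)
  have hlift : ∀ i, (fun u : Fin k → N => FreeGroup.lift (fun i => g i * (u i : G))
      (FreeGroup.of i)) = fun u => g i * (u i : G) := by
    intro i
    funext u
    simp
  have hof : ∀ i : Fin k, (fun u : Fin k → N => FreeGroup.lift (fun i => g i * (u i : G))
      (FreeGroup.of i)) ∈ Q := by
    intro i
    rw [hlift]
    exact Q.mul_mem (hc (g i)) (hi i)
  have main_of : ∀ i : Fin k, ∃ S1 S0 : Set ((Fin k → N) → G), S1.Finite ∧ S0.Finite ∧ S1 ⊆ Q ∧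
      S0 ⊆ Q ∧ (fun u : Fin k → N => m (FreeGroup.lift (fun i => g i * (u i : G))
        (FreeGroup.of i))) ∈ FF N m S1 S0 := by
    intro i
    refine ⟨{fun _ => g i}, {fun _ => 1}, Set.finite_singleton _, Set.finite_singleton _,
      Set.singleton_subset_iff.mpr (hc _), Set.singleton_subset_iff.mpr (hc _), ?_⟩
    have h : (fun u : Fin k → N => m (FreeGroup.lift (fun i => g i * (u i : G))
        (FreeGroup.of i))) = (fun _ => (1 : G) • m (g i)) + (fun u => g i • m (u i)) := by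
      funext u
      rw [congrFun (hlift i) u, hK.der]
      simp
    rw [h]
    exact AddSubgroup.add_mem _
      (hmem0 {fun _ => g i} {fun _ => 1} (fun _ => 1) (Set.mem_singleton _) (m (g i)))
      (hmem1 {fun _ => g i} {fun _ => 1} (fun _ => g i) (Set.mem_singleton _) i)
  have main_inv : ∀ w : FreeGroup (Fin k),
      ((fun u : Fin k → N => FreeGroup.lift (fun i => g i * (u i : G)) w) ∈ Q ∧
      ∃ S1 S0 : Set ((Fin k → N) → G), S1.Finite ∧ S0.Finite ∧ S1 ⊆ Q ∧ S0 ⊆ Q ∧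
      (fun u : Fin k → N => m (FreeGroup.lift (fun i => g i * (u i : G)) w)) ∈ FF N m S1 S0) →
      ((fun u : Fin k → N => FreeGroup.lift (fun i => g i * (u i : G)) w⁻¹) ∈ Q ∧
      ∃ S1 S0 : Set ((Fin k → N) → G), S1.Finite ∧ S0.Finite ∧ S1 ⊆ Q ∧ S0 ⊆ Q ∧
      (fun u : Fin k → N => m (FreeGroup.lift (fun i => g i * (u i : G)) w⁻¹)) ∈
        FF N m S1 S0) := by
    rintro w ⟨hq, S1, S0, f1, f0, h1, h0, hm⟩
    refine ⟨?_, ?_⟩
    · have h : (fun u : Fin k → N => FreeGroup.lift (fun i => g i * (u i : G)) w⁻¹) =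
          (fun u : Fin k → N => FreeGroup.lift (fun i => g i * (u i : G)) w)⁻¹ := by
        funext u
        simp
      rw [h]
      exact Q.inv_mem hq
    · refine ⟨tr _ S1, tr _ S0, (htr _ _ hq h1 f1).2, (htr _ _ hq h0 f0).2,
        (htr _ _ hq h1 f1).1, (htr _ _ hq h0 f0).1, ?_⟩
      have h := hFB G N k M m S1 S0
        (fun u : Fin k → N => FreeGroup.lift (fun i => g i * (u i : G)) w) _ hm
      have h2 := AddSubgroup.neg_mem _ h
      convert h2 using 1
      funext u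
      simp [minv]
  have main_mul : ∀ w v : FreeGroup (Fin k),
      ((fun u : Fin k → N => FreeGroup.lift (fun i => g i * (u i : G)) w) ∈ Q ∧
      ∃ S1 S0 : Set ((Fin k → N) → G), S1.Finite ∧ S0.Finite ∧ S1 ⊆ Q ∧ S0 ⊆ Q ∧
      (fun u : Fin k → N => m (FreeGroup.lift (fun i => g i * (u i : G)) w)) ∈ FF N m S1 S0) →
      ((fun u : Fin k → N => FreeGroup.lift (fun i => g i * (u i : G)) v) ∈ Q ∧
      ∃ S1 S0 : Set ((Fin k → N) → G), S1.Finite ∧ S0.Finite ∧ S1 ⊆ Q ∧ S0 ⊆ Q ∧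
      (fun u : Fin k → N => m (FreeGroup.lift (fun i => g i * (u i : G)) v)) ∈ FF N m S1 S0) →
      ((fun u : Fin k → N => FreeGroup.lift (fun i => g i * (u i : G)) (w * v)) ∈ Q ∧
      ∃ S1 S0 : Set ((Fin k → N) → G), S1.Finite ∧ S0.Finite ∧ S1 ⊆ Q ∧ S0 ⊆ Q ∧
      (fun u : Fin k → N => m (FreeGroup.lift (fun i => g i * (u i : G)) (w * v))) ∈
        FF N m S1 S0) := by
    rintro w v ⟨hq, S1, S0, f1, f0, h1, h0, hm⟩ ⟨hq', T1, T0, f1', f0', h1', h0', hm'⟩
    refine ⟨?_, ?_⟩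
    · have h : (fun u : Fin k → N => FreeGroup.lift (fun i => g i * (u i : G)) (w * v)) =
          (fun u : Fin k → N => FreeGroup.lift (fun i => g i * (u i : G)) w) *
          (fun u : Fin k → N => FreeGroup.lift (fun i => g i * (u i : G)) v) := by
        funext u
        simp
      rw [h]
      exact Q.mul_mem hq hq'
    · set F : (Fin k → N) → G := fun u => FreeGroup.lift (fun i => g i * (u i : G)) w with hF
      have hqi : F⁻¹ ∈ Q := Q.inv_mem hq
      refine ⟨S1 ∪ tr F⁻¹ T1, S0 ∪ tr F⁻¹ T0, f1.union (htr _ _ hqi h1' f1').2,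
        f0.union (htr _ _ hqi h0' f0').2, Set.union_subset h1 (htr _ _ hqi h1' f1').1,
        Set.union_subset h0 (htr _ _ hqi h0' f0').1, ?_⟩
      have h := hFB G N k M m T1 T0 F⁻¹ _ hm'
      have e : (fun u : Fin k → N => m (FreeGroup.lift (fun i => g i * (u i : G)) (w * v))) =
          (fun u : Fin k → N => m (FreeGroup.lift (fun i => g i * (u i : G)) w)) +
          (fun u => (F⁻¹ u)⁻¹ • m (FreeGroup.lift (fun i => g i * (u i : G)) v)) := by
        funext u
        simp [hF, hK.der]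
      rw [e]
      exact AddSubgroup.add_mem _
        (ff_mono N m Set.subset_union_left Set.subset_union_left hm)
        (ff_mono N m Set.subset_union_right Set.subset_union_right h)
  induction w using FreeGroup.induction_on with
  | C1 =>
    refine ⟨?_, ∅, ∅, Set.finite_empty, Set.finite_empty, Set.empty_subset _,
      Set.empty_subset _, ?_⟩
    · have h : (fun u : Fin k → N => FreeGroup.lift (fun i => g i * (u i : G)) 1) = 1 := by
        funext u
        simp
      rw [h]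
      exact Q.one_mem
    · have h : (fun u : Fin k → N => m (FreeGroup.lift (fun i => g i * (u i : G)) 1)) = 0 := by
        funext u
        simp [m1]
      rw [h]
      exact AddSubgroup.zero_mem _
  | of i => exact ⟨hof i, main_of i⟩
  | inv_of i _ => exact main_inv _ ⟨hof i, main_of i⟩
  | mul w v hw hv => exact main_mul w v hw hv

end Pool.Agent.Helper18.CN
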